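import Mathlib

/-!
# Short Weierstrass curves: scalings, halving and points with `2 ^ m • P = R`
-/

set_option autoImplicit false

namespace Pool.Agent.T9h37.PK

open WeierstrassCurve

/-- the curve `y² = x³ + a x + b` -/
def crv {k : Type} [Field k] (a b : k) : WeierstrassCurve k := ⟨0, 0, 0, a, b⟩

/-- the cubic polynomial `s³ + a s + b` -/
def cub {k : Type} [Field k] (a b s : k) : k := s ^ 3 + a * s + b

section basics

variable {k : Type} [Field k]

lemma crv_negY (A B x y : k) : (crv A B).toAffine.negY x y = -y := by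
  simp [Affine.negY, crv, WeierstrassCurve.toAffine]

lemma crv_eq {A B x y : k} : (crv A B).toAffine.Equation x y ↔ y ^ 2 = cub A B x := by
  rw [Affine.equation_iff]
  simp only [crv, WeierstrassCurve.toAffine, cub]
  constructor
  · intro h
    linear_combination h
  · intro h
    linear_combination h

lemma crv_ns {A B x y : k} : (crv A B).toAffine.Nonsingular x y ↔
    y ^ 2 = cub A B x ∧ (3 * x ^ 2 + A ≠ 0 ∨ 2 * y ≠ 0) := by
  rw [Affine.nonsingular_iff, crv_eq]
  refine and_congr_right fun _ => or_congr ?_ ?_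
  · simp only [crv, WeierstrassCurve.toAffine]
    refine not_congr ⟨fun h => ?_, fun h => ?_⟩
    · linear_combination -h
    · linear_combination -h
  · simp only [crv, WeierstrassCurve.toAffine]
    refine not_congr ⟨fun h => ?_, fun h => ?_⟩
    · linear_combination h
    · linear_combination h

/-- for a curve with nonzero discriminant all the affine points are nonsingular -/
lemma crv_ns' [CharZero k] {A B x y : k} (hd : 4 * A ^ 3 + 27 * B ^ 2 ≠ 0) (h : y ^ 2 = cub A B x) :
    (crv A B).toAffine.Nonsingular x y := by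
  rw [crv_ns]
  refine ⟨h, ?_⟩
  by_contra hc
  rw [not_or, not_not, not_not] at hc
  obtain ⟨h1, h2⟩ := hc
  have hy : y = 0 := by
    rcases mul_eq_zero.1 h2 with h3 | h3
    · exact absurd h3 two_ne_zero
    · exact h3
  apply hd
  rw [hy, cub] at h
  have h3 : x ^ 3 + A * x + B = 0 := by rw [← h]; ring
  have hA : A = -3 * x ^ 2 := by linear_combination h1
  have hB : B = 2 * x ^ 3 := by
    rw [hA] at h3
    linear_combination h3
  rw [hA, hB]
  ring

lemma some_eq {A B x y x' y' : k} {h : (crv A B).toAffine.Nonsingular x y}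
    {h' : (crv A B).toAffine.Nonsingular x' y'} (hx : x = x') (hy : y = y') :
    (Affine.Point.some x y h : (crv A B).toAffine.Point) = Affine.Point.some x' y' h' := by
  subst hx hy
  rfl

end basics

section tr

variable {N : Type} [Field N] [DecidableEq N]

lemma slope_tr {s : N} (hs : s ≠ 0) {A B : N} {A' B' : N} (hA : A' = s ^ 4 * A)
    (x1 x2 y1 y2 : N) :
    (crv A' B').toAffine.slope (s ^ 2 * x1) (s ^ 2 * x2) (s ^ 3 * y1) (s ^ 3 * y2) =
      s * (crv A B).toAffine.slope x1 x2 y1 y2 := by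
  have h2 : ∀ u w : N, s ^ 2 * u = s ^ 2 * w ↔ u = w := fun u w =>
    ⟨fun h => mul_left_cancel₀ (pow_ne_zero 2 hs) h, fun h => by rw [h]⟩
  have h3 : ∀ u w : N, s ^ 3 * u = -(s ^ 3 * w) ↔ u = -w := fun u w =>
    ⟨fun h => mul_left_cancel₀ (pow_ne_zero 3 hs) (by rw [h]; ring),
      fun h => by rw [h]; ring⟩
  by_cases hx : x1 = x2
  · subst hx
    by_cases hy : y1 = -y2
    · rw [Affine.slope_of_Y_eq rfl (by rw [crv_negY]; exact (h3 _ _).2 hy),
        Affine.slope_of_Y_eq rfl (by rw [crv_negY]; exact hy), mul_zero]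
    · rw [Affine.slope_of_Y_ne rfl (by rw [crv_negY]; exact fun h => hy ((h3 _ _).1 h)),
        Affine.slope_of_Y_ne rfl (by rw [crv_negY]; exact hy), crv_negY, crv_negY]
      simp only [crv, WeierstrassCurve.toAffine, hA]
      by_cases h0 : y1 = 0
      · rw [h0]
        simp
      · by_cases h2' : (2 : N) = 0
        · have e1 : s ^ 3 * y1 - -(s ^ 3 * y1) = 0 := by linear_combination (s ^ 3 * y1) * h2'
          have e2 : y1 - -y1 = 0 := by linear_combination (y1) * h2'
          rw [e1, e2, div_zero, div_zero, mul_zero]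
        · have e2 : y1 - -y1 ≠ 0 := by
            have : y1 - -y1 = 2 * y1 := by ring
            rw [this]
            exact mul_ne_zero h2' h0
          have e1 : s ^ 3 * y1 - -(s ^ 3 * y1) ≠ 0 := by
            have : s ^ 3 * y1 - -(s ^ 3 * y1) = s ^ 3 * (y1 - -y1) := by ring
            rw [this]
            exact mul_ne_zero (pow_ne_zero 3 hs) e2
          rw [div_eq_iff e1, mul_div_assoc', div_mul_eq_mul_div, eq_div_iff e2]
          ring
  · rw [Affine.slope_of_X_ne (fun h => hx ((h2 _ _).1 h)), Affine.slope_of_X_ne hx]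
    have e2 : x1 - x2 ≠ 0 := sub_ne_zero.2 hx
    have e1 : s ^ 2 * x1 - s ^ 2 * x2 ≠ 0 := by
      rw [← mul_sub]
      exact mul_ne_zero (pow_ne_zero 2 hs) e2
    rw [div_eq_iff e1, mul_assoc, div_mul_eq_mul_div, eq_comm, mul_div_assoc', div_eq_iff e2]
    ring

/-- the scaling `(x, y) ↦ (s² x, s³ y)` is an isomorphism -/
theorem exists_tr {s : N} (hs : s ≠ 0) {A B : N} {A' B' : N}
    (hA : A' = s ^ 4 * A) (hB : B' = s ^ 6 * B) :
    ∃ g : (crv A B).toAffine.Point →+ (crv A' B').toAffine.Point, Function.Bijective g ∧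
      ∀ x y h, ∃ h', g (Affine.Point.some x y h) =
        Affine.Point.some (s ^ 2 * x) (s ^ 3 * y) h' := by
  have hns : ∀ {x y : N}, (crv A B).toAffine.Nonsingular x y →
      (crv A' B').toAffine.Nonsingular (s ^ 2 * x) (s ^ 3 * y) := by
    intro x y h
    rw [crv_ns] at h ⊢
    obtain ⟨h1, h2⟩ := h
    refine ⟨?_, ?_⟩
    · rw [cub] at h1 ⊢
      rw [hA, hB]
      linear_combination s ^ 6 * h1
    · rcases h2 with h2 | h2
      · left
        have e : 3 * (s ^ 2 * x) ^ 2 + A' = s ^ 4 * (3 * x ^ 2 + A) := by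
          rw [hA]
          ring
        rw [e]
        exact mul_ne_zero (pow_ne_zero 4 hs) h2
      · right
        have e : 2 * (s ^ 3 * y) = s ^ 3 * (2 * y) := by ring
        rw [e]
        exact mul_ne_zero (pow_ne_zero 3 hs) h2
  let g0 : (crv A B).toAffine.Point → (crv A' B').toAffine.Point := fun P => match P with
    | 0 => 0
    | Affine.Point.some _ _ h => Affine.Point.some _ _ (hns h)
  have hadd : ∀ P Q, g0 (P + Q) = g0 P + g0 Q := by
    rintro (_ | ⟨x1, y1, h1⟩) (_ | ⟨x2, y2, h2⟩)
    any_goals rfl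
    have e2 : ∀ u w : N, s ^ 2 * u = s ^ 2 * w ↔ u = w := fun u w =>
      ⟨fun h => mul_left_cancel₀ (pow_ne_zero 2 hs) h, fun h => by rw [h]⟩
    have e3 : ∀ u w : N, s ^ 3 * u = -(s ^ 3 * w) ↔ u = -w := fun u w =>
      ⟨fun h => mul_left_cancel₀ (pow_ne_zero 3 hs) (by rw [h]; ring),
        fun h => by rw [h]; ring⟩
    by_cases hxy : x1 = x2 ∧ y1 = (crv A B).toAffine.negY x2 y2
    · have h3 : s ^ 2 * x1 = s ^ 2 * x2 := (e2 _ _).2 hxy.1
      have h4 : s ^ 3 * y1 = (crv A' B').toAffine.negY (s ^ 2 * x2) (s ^ 3 * y2) := by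
        rw [crv_negY]
        have := hxy.2
        rw [crv_negY] at this
        exact (e3 _ _).2 this
      show g0 _ = Affine.Point.some _ _ (hns h1) + Affine.Point.some _ _ (hns h2)
      rw [Affine.Point.add_of_Y_eq hxy.1 hxy.2, Affine.Point.add_of_Y_eq h3 h4]
    · have hxy' : ¬ (s ^ 2 * x1 = s ^ 2 * x2 ∧
          s ^ 3 * y1 = (crv A' B').toAffine.negY (s ^ 2 * x2) (s ^ 3 * y2)) := by
        rintro ⟨h3, h4⟩
        rw [crv_negY] at h4
        exact hxy ⟨(e2 _ _).1 h3, by rw [crv_negY]; exact (e3 _ _).1 h4⟩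
      show g0 _ = Affine.Point.some _ _ (hns h1) + Affine.Point.some _ _ (hns h2)
      rw [Affine.Point.add_some hxy, Affine.Point.add_some hxy']
      show Affine.Point.some _ _ _ = Affine.Point.some _ _ _
      have hsl := slope_tr (B := B) (B' := B') hs hA x1 x2 y1 y2
      have hX : s ^ 2 * ((crv A B).toAffine.addX x1 x2 ((crv A B).toAffine.slope x1 x2 y1 y2)) =
          (crv A' B').toAffine.addX (s ^ 2 * x1) (s ^ 2 * x2)
            ((crv A' B').toAffine.slope (s ^ 2 * x1) (s ^ 2 * x2) (s ^ 3 * y1)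
              (s ^ 3 * y2)) := by
        rw [hsl]
        simp only [Affine.addX, crv, WeierstrassCurve.toAffine]
        ring
      have hY : s ^ 3 * ((crv A B).toAffine.addY x1 x2 y1
            ((crv A B).toAffine.slope x1 x2 y1 y2)) =
          (crv A' B').toAffine.addY (s ^ 2 * x1) (s ^ 2 * x2) (s ^ 3 * y1)
            ((crv A' B').toAffine.slope (s ^ 2 * x1) (s ^ 2 * x2) (s ^ 3 * y1)
              (s ^ 3 * y2)) := by
        rw [hsl]
        simp only [Affine.addY, Affine.negAddY, Affine.negY, Affine.addX, crv,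
          WeierstrassCurve.toAffine]
        ring
      simp only [Affine.Point.some.injEq]
      exact ⟨hX, hY⟩
  let g : (crv A B).toAffine.Point →+ (crv A' B').toAffine.Point :=
    { toFun := g0
      map_zero' := rfl
      map_add' := hadd }
  refine ⟨g, ⟨?_, ?_⟩, fun x y h => ⟨hns h, rfl⟩⟩
  · rw [injective_iff_map_eq_zero]
    rintro (_ | ⟨x, y, h⟩) h0
    · rfl
    · exact absurd h0 (Affine.Point.some_ne_zero _)
  · rintro (_ | ⟨x, y, h⟩)
    · exact ⟨0, rfl⟩
    · have h' : (crv A B).toAffine.Nonsingular (x / s ^ 2) (y / s ^ 3) := by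
        rw [crv_ns] at h ⊢
        obtain ⟨h1, h2⟩ := h
        rw [cub, hA, hB] at h1
        rw [hA] at h2
        have hs2 := pow_ne_zero 2 hs
        have hs3 := pow_ne_zero 3 hs
        refine ⟨?_, ?_⟩
        · rw [cub]
          field_simp
          linear_combination h1
        · rcases h2 with h2 | h2
          · left
            intro h3
            apply h2
            have : x = s ^ 2 * (x / s ^ 2) := by field_simp
            rw [this]
            linear_combination s ^ 4 * h3
          · right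
            intro h3
            apply h2
            have : y = s ^ 3 * (y / s ^ 3) := by field_simp
            rw [this]
            linear_combination s ^ 3 * h3
      refine ⟨Affine.Point.some _ _ h', ?_⟩
      show Affine.Point.some _ _ _ = _
      apply some_eq
      · field_simp
      · field_simp

end tr

section half

variable {k : Type} [Field k] [CharZero k] [IsAlgClosed k] [DecidableEq k]

/-- a point can be halved -/
theorem exists_half {a b : k} (hd : 4 * a ^ 3 + 27 * b ^ 2 ≠ 0)
    (P : (crv a b).toAffine.Point) : ∃ Q : (crv a b).toAffine.Point, Q + Q = P := by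
  rcases P with _ | ⟨x0, y0, h0⟩
  · exact ⟨0, rfl⟩
  have hy0 : y0 ^ 2 = cub a b x0 := (crv_ns.1 h0).1
  -- the quartic polynomial
  obtain ⟨x, hx⟩ : ∃ x : k, x ^ 4 - 2 * a * x ^ 2 - 8 * b * x + a ^ 2 -
      4 * x0 * cub a b x = 0 := by
    set p : Polynomial k := Polynomial.X ^ 4 + (Polynomial.C (-4 * x0) * Polynomial.X ^ 3 +
      Polynomial.C (-2 * a) * Polynomial.X ^ 2 + Polynomial.C (-8 * b - 4 * x0 * a) * Polynomial.X +
      Polynomial.C (a ^ 2 - 4 * x0 * b)) with hp
    have hdeg : p.degree = 4 := by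
      rw [hp]
      compute_degree!
    obtain ⟨x, hx⟩ := IsAlgClosed.exists_root p (by rw [hdeg]; norm_num)
    refine ⟨x, ?_⟩
    rw [Polynomial.IsRoot.def, hp] at hx
    simp only [Polynomial.eval_add, Polynomial.eval_mul, Polynomial.eval_pow, Polynomial.eval_X,
      Polynomial.eval_C] at hx
    rw [cub]
    linear_combination hx
  have hfx : cub a b x ≠ 0 := by
    intro hf
    rw [hf] at hx
    have h1 : (3 * x ^ 2 + a) ^ 2 = 0 := by
      rw [cub] at hf
      linear_combination hx + 8 * x * hf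
    have h2 : 3 * x ^ 2 + a = 0 := pow_eq_zero_iff (two_ne_zero) |>.1 h1
    apply hd
    rw [cub] at hf
    have hA : a = -3 * x ^ 2 := by linear_combination h2
    have hB : b = 2 * x ^ 3 := by
      rw [hA] at hf
      linear_combination hf
    rw [hA, hB]
    ring
  obtain ⟨y, hy⟩ := IsAlgClosed.exists_pow_nat_eq (cub a b x) (n := 2) (by norm_num)
  have hy0' : y ≠ 0 := by
    rintro rfl
    exact hfx (by rw [← hy]; ring)
  have hns : (crv a b).toAffine.Nonsingular x y := crv_ns' hd hy
  set Q : (crv a b).toAffine.Point := Affine.Point.some x y hns with hQ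
  have hne : ¬ (x = x ∧ y = (crv a b).toAffine.negY x y) := by
    rintro ⟨-, h⟩
    rw [crv_negY] at h
    apply hy0'
    have : 2 * y = 0 := by linear_combination h
    rcases mul_eq_zero.1 this with h3 | h3
    · exact absurd h3 two_ne_zero
    · exact h3
  have hsl : (crv a b).toAffine.slope x x y y = (3 * x ^ 2 + a) / (2 * y) := by
    rw [Affine.slope_of_Y_ne rfl (fun h => hne ⟨rfl, h⟩), crv_negY]
    simp only [crv, WeierstrassCurve.toAffine]
    congr 1
    · ring
    · ring
  have hX : (crv a b).toAffine.addX x x ((crv a b).toAffine.slope x x y y) = x0 := by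
    rw [hsl]
    simp only [Affine.addX, crv, WeierstrassCurve.toAffine]
    have h4 : (2 * y) ≠ 0 := mul_ne_zero two_ne_zero hy0'
    have h40 : (4 : k) ≠ 0 := by norm_num
    have h5 : (4 * cub a b x) ≠ 0 := mul_ne_zero h40 hfx
    have e1 : ((3 * x ^ 2 + a) / (2 * y)) ^ 2 = (3 * x ^ 2 + a) ^ 2 / (4 * cub a b x) := by
      rw [div_pow, ← hy]
      congr 1
      ring
    rw [e1]
    have e2 : (3 * x ^ 2 + a) ^ 2 / (4 * cub a b x) = x0 + 2 * x := by
      rw [div_eq_iff h5]
      rw [cub] at hx ⊢
      linear_combination hx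
    rw [e2]
    ring
  -- the double is `(x0, ± y0)`
  obtain ⟨y1, hY⟩ : ∃ y1, (crv a b).toAffine.addY x x y ((crv a b).toAffine.slope x x y y) = y1 :=
    ⟨_, rfl⟩
  have hQQ : ∃ h', Q + Q = Affine.Point.some x0 y1 h' := by
    have h6 : (crv a b).toAffine.Nonsingular x0 y1 := by
      have := (crv a b).toAffine.nonsingular_add hns hns hne
      rw [hX, hY] at this
      exact this
    refine ⟨h6, ?_⟩
    rw [hQ, Affine.Point.add_some hne]
    exact some_eq hX hY
  obtain ⟨h6, hQQ⟩ := hQQ
  have hy1 : y1 ^ 2 = cub a b x0 := (crv_ns.1 h6).1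
  have h7 : (y1 - y0) * (y1 + y0) = 0 := by linear_combination hy1 - hy0
  rcases mul_eq_zero.1 h7 with h8 | h8
  · refine ⟨Q, ?_⟩
    rw [hQQ]
    exact some_eq rfl (by linear_combination h8)
  · refine ⟨-Q, ?_⟩
    rw [← neg_add, hQQ, Affine.Point.neg_some]
    exact some_eq rfl (by rw [crv_negY]; linear_combination -h8)

/-- a point of order two -/
theorem exists_two {a b : k} (hd : 4 * a ^ 3 + 27 * b ^ 2 ≠ 0) :
    ∃ T : (crv a b).toAffine.Point, T ≠ 0 ∧ T + T = 0 := by
  obtain ⟨x, hx⟩ : ∃ x : k, cub a b x = 0 := by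
    set p : Polynomial k := Polynomial.X ^ 3 + (Polynomial.C a * Polynomial.X + Polynomial.C b)
      with hp
    have hdeg : p.degree = 3 := by
      rw [hp]
      compute_degree!
    obtain ⟨x, hx⟩ := IsAlgClosed.exists_root p (by rw [hdeg]; norm_num)
    refine ⟨x, ?_⟩
    rw [Polynomial.IsRoot.def, hp] at hx
    simp only [Polynomial.eval_add, Polynomial.eval_mul, Polynomial.eval_pow, Polynomial.eval_X,
      Polynomial.eval_C] at hx
    rw [cub]
    linear_combination hx
  have hns : (crv a b).toAffine.Nonsingular x 0 := crv_ns' hd (by rw [hx]; ring)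
  refine ⟨Affine.Point.some x 0 hns, Affine.Point.some_ne_zero _, ?_⟩
  apply Affine.Point.add_of_Y_eq rfl
  rw [crv_negY, neg_zero]

end half

section grp

/-- in a 2-divisible group with an element of order two there are infinitely many `P` with
`2 ^ m • P = R` for some `m ≥ 1` -/
theorem infinite_pow {G : Type} [AddCommGroup G] (h2 : ∀ P : G, ∃ Q : G, Q + Q = P) {T : G}
    (hT : T ≠ 0) (hT2 : T + T = 0) (R : G) :
    {P : G | ∃ m : ℕ, 1 ≤ m ∧ 2 ^ m • P = R}.Infinite := by
  set W : Set G := {P : G | ∃ m : ℕ, 1 ≤ m ∧ 2 ^ m • P = R} with hW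
  intro hfin
  choose h hh using h2
  have hmap : Set.MapsTo h W W := by
    rintro P ⟨m, hm, hP⟩
    refine ⟨m + 1, by omega, ?_⟩
    rw [pow_succ, mul_smul, two_smul, hh, hP]
  have hinj : Set.InjOn h W := by
    intro P _ Q _ hPQ
    rw [← hh P, ← hh Q, hPQ]
  have hsurj : Set.SurjOn h W W := by
    have := (hfin.injOn_iff_bijOn_of_mapsTo hmap).1 hinj
    exact this.surjOn
  have hR : h R ∈ W := ⟨1, le_rfl, by rw [pow_one, two_smul, hh]⟩
  have hRT : h R + T ∈ W := ⟨1, le_rfl, by
    rw [pow_one, two_smul]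
    have : h R + T + (h R + T) = (h R + h R) + (T + T) := by abel
    rw [this, hh, hT2, add_zero]⟩
  obtain ⟨P, -, hP⟩ := hsurj hR
  obtain ⟨Q, -, hQ⟩ := hsurj hRT
  have hPQ : P = Q := by
    rw [← hh P, ← hh Q, hP, hQ]
    have : h R + T + (h R + T) = (h R + h R) + (T + T) := by abel
    rw [this, hT2, add_zero]
  rw [hPQ, hQ] at hP
  apply hT
  have : h R + T = h R + 0 := by rw [add_zero]; exact hP
  exact add_left_cancel this

end grp

end Pool.Agent.T9h37.PK
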