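import Pool.Agent.T9h37.PK.Crv

/-!
# Polynomial functions on the curve `δ² = s³ + a s + b` with infinitely many zeros
-/

set_option autoImplicit false

namespace Pool.Agent.T9h37.PK

open Polynomial

variable {k : Type} [Field k]

/-- functions `A(s) + δ B(s)` on the curve -/
def Rep (a b : k) (F : k → k → k) : Prop :=
  ∃ A B : k[X], ∀ s δ, δ ^ 2 = cub a b s → F s δ = A.eval s + δ * B.eval s

variable {a b : k}

lemma Rep.const (c : k) : Rep a b (fun _ _ => c) :=
  ⟨C c, 0, fun s δ _ => by simp⟩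

lemma Rep.fst : Rep a b (fun s _ => s) :=
  ⟨X, 0, fun s δ _ => by simp⟩

lemma Rep.snd : Rep a b (fun _ δ => δ) :=
  ⟨0, 1, fun s δ _ => by simp⟩

lemma Rep.add {F G : k → k → k} (hF : Rep a b F) (hG : Rep a b G) :
    Rep a b (fun s δ => F s δ + G s δ) := by
  obtain ⟨A, B, h⟩ := hF
  obtain ⟨A', B', h'⟩ := hG
  refine ⟨A + A', B + B', fun s δ hs => ?_⟩
  show F s δ + G s δ = _
  rw [h s δ hs, h' s δ hs, eval_add, eval_add]
  ring

lemma Rep.mul {F G : k → k → k} (hF : Rep a b F) (hG : Rep a b G) :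
    Rep a b (fun s δ => F s δ * G s δ) := by
  obtain ⟨A, B, h⟩ := hF
  obtain ⟨A', B', h'⟩ := hG
  refine ⟨A * A' + (X ^ 3 + C a * X + C b) * (B * B'), A * B' + B * A', fun s δ hs => ?_⟩
  show F s δ * G s δ = _
  rw [h s δ hs, h' s δ hs]
  simp only [eval_add, eval_mul, eval_pow, eval_X, eval_C]
  rw [cub] at hs
  linear_combination B.eval s * B'.eval s * hs

lemma Rep.ofCub : Rep a b (fun s _ => cub a b s) := by
  refine ⟨X ^ 3 + C a * X + C b, 0, fun s δ _ => ?_⟩
  simp only [eval_add, eval_mul, eval_pow, eval_X, eval_C, eval_zero, mul_zero, add_zero]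
  rw [PK.cub]

lemma Rep.eval {ι : Type} {v : k → k → ι → k} (hv : ∀ i, Rep a b (fun s δ => v s δ i))
    (p : MvPolynomial ι k) : Rep a b (fun s δ => MvPolynomial.eval (v s δ) p) := by
  induction p using MvPolynomial.induction_on with
  | C c => simpa using Rep.const c
  | add p q hp hq => simpa using hp.add hq
  | mul_X p i hp => simpa using hp.mul (hv i)

/-- for a fixed finite set of abscissas there are finitely many points -/
lemma finite_over {N : Set k} (hN : N.Finite) :
    {z : k × k | z.2 ^ 2 = cub a b z.1 ∧ z.1 ∈ N}.Finite := by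
  have h1 : ∀ c : k, {y : k | y ^ 2 = c}.Finite := by
    intro c
    have h2 : (X ^ 2 - C c : k[X]) ≠ 0 := (monic_X_pow_sub_C c two_ne_zero).ne_zero
    refine (finite_setOfPred_isRoot h2).subset fun y hy => ?_
    show (X ^ 2 - C c : k[X]).eval y = 0
    rw [eval_sub, eval_pow, eval_X, eval_C, sub_eq_zero]
    exact hy
  refine (hN.biUnion (t := fun s => (fun y => (s, y)) '' {y : k | y ^ 2 = cub a b s})
    fun s _ => (h1 _).image _).subset ?_
  rintro ⟨s, y⟩ ⟨h2, h3⟩
  exact Set.mem_biUnion h3 ⟨y, h2, rfl⟩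

/-- a polynomial function with infinitely many zeros vanishes -/
theorem Rep.zero {F : k → k → k} (hF : Rep a b F)
    (hinf : {z : k × k | z.2 ^ 2 = cub a b z.1 ∧ F z.1 z.2 = 0}.Infinite) :
    ∀ s δ, δ ^ 2 = cub a b s → F s δ = 0 := by
  obtain ⟨A, B, h⟩ := hF
  set f : k[X] := X ^ 3 + (C a * X + C b) with hf
  have hfe : ∀ s, f.eval s = cub a b s := by
    intro s
    rw [hf, PK.cub]
    simp only [eval_add, eval_mul, eval_pow, eval_X, eval_C]
    ring
  have hfd : f.natDegree = 3 := by
    rw [hf]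
    compute_degree!
  have h0 : A ^ 2 - f * B ^ 2 = 0 := by
    by_contra hne
    apply hinf
    refine (finite_over (a := a) (b := b) (finite_setOfPred_isRoot hne)).subset ?_
    rintro ⟨s, δ⟩ ⟨h1, h2⟩
    refine ⟨h1, ?_⟩
    have h3 := h s δ h1
    simp only at h1 h2 h3
    rw [h2] at h3
    show (A ^ 2 - f * B ^ 2).eval s = 0
    rw [eval_sub, eval_mul, eval_pow, eval_pow, hfe, ← h1]
    linear_combination -(A.eval s - δ * B.eval s) * h3
  have hB : B = 0 := by
    by_contra hB
    have h1 : A ^ 2 = f * B ^ 2 := sub_eq_zero.1 h0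
    have h2 := congrArg natDegree h1
    have hf0 : f ≠ 0 := by
      intro h3
      rw [h3] at hfd
      simp at hfd
    rw [natDegree_pow, natDegree_mul hf0 (pow_ne_zero 2 hB), natDegree_pow, hfd] at h2
    omega
  have hA : A = 0 := by
    rw [hB] at h0
    have : A ^ 2 = 0 := by simpa using h0
    exact pow_eq_zero_iff (two_ne_zero) |>.1 this
  intro s δ hs
  rw [h s δ hs, hA, hB]
  simp

section inf

/-- an infinite set of points gives an infinite set of coordinates, also outside of a finite set of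
abscissas -/
theorem infinite_coords {W : Set (crv a b).toAffine.Point} (hW : W.Infinite) {N : Set k}
    (hN : N.Finite) :
    {z : k × k | z.2 ^ 2 = cub a b z.1 ∧ z.1 ∉ N ∧
      ∃ h, (WeierstrassCurve.Affine.Point.some z.1 z.2 h : (crv a b).toAffine.Point) ∈ W}.Infinite := by
  intro hfin
  apply hW
  let c : k × k → Set (crv a b).toAffine.Point := fun z =>
    {P | ∃ h, P = WeierstrassCurve.Affine.Point.some z.1 z.2 h}
  have hc : ∀ z, (c z).Finite := by
    intro z
    refine Set.Subsingleton.finite ?_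
    rintro P ⟨h, hP⟩ Q ⟨h', hQ⟩
    rw [hP, hQ]
  have h1 := ((hfin.union (finite_over (a := a) (b := b) hN)).biUnion (t := c) fun z _ => hc z)
  refine (h1.union (Set.finite_singleton (0 : (crv a b).toAffine.Point))).subset ?_
  rintro (_ | ⟨x, y, h⟩) hP
  · right
    rfl
  · left
    have h2 : y ^ 2 = cub a b x := (crv_ns.1 h).1
    refine Set.mem_biUnion (x := (x, y)) ?_ ⟨h, rfl⟩
    by_cases hx : x ∈ N
    · exact Or.inr ⟨h2, hx⟩
    · exact Or.inl ⟨h2, hx, h, hP⟩

end inf

end Pool.Agent.T9h37.PK
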